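import Mathlib
import Pool.Agent.Y334.FS.FinalR

set_option autoImplicit false

open Polynomial

namespace Pool.Agent.Results.MP_8f2e1c_an.FiberedFatou

/-- `P / Q` is in lowest terms and has degree `d` (as a rational map of the Riemann sphere). -/
def Pair (d : ℕ) (P Q : ℂ[X]) : Prop := IsCoprime P Q ∧ max P.natDegree Q.natDegree = d

/-- `f` is the rational map `P / Q` of the Riemann sphere, in lowest terms and of degree `d`. -/
def IsRational (d : ℕ) (P Q : ℂ[X]) (f : OnePoint ℂ → OnePoint ℂ) : Prop :=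
  Pair d P Q ∧ Continuous f ∧
    ∀ z : ℂ, Q.eval z ≠ 0 → f (OnePoint.some z) = OnePoint.some (P.eval z / Q.eval z)

/-- The critical points of a rational map: the points where it is not locally injective. -/
def Critical (f : OnePoint ℂ → OnePoint ℂ) (c : OnePoint ℂ) : Prop :=
  ¬ ∃ U ∈ nhds c, Set.InjOn f U

/-- Hyperbolicity of one map: every critical point has an orbit converging to an attracting
periodic cycle. This is word for word the condition of the frozen statement `S05373`. -/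
def Hyperbolic (f : OnePoint ℂ → OnePoint ℂ) : Prop :=
  ∀ c : OnePoint ℂ, Critical f c →
    ∃ z : OnePoint ℂ, ∃ n : ℕ, 0 < n ∧ f^[n] z = z ∧
      (∃ U ∈ nhds z, ∀ w ∈ U,
        Filter.Tendsto (fun k : ℕ => f^[n * k] w) Filter.atTop (nhds z)) ∧
      Filter.Tendsto (fun k : ℕ => f^[n * k] c) Filter.atTop (nhds z)

/-- The composition `g (n - 1) ∘ ... ∘ g 1 ∘ g 0`. -/
def comp (g : ℕ → OnePoint ℂ → OnePoint ℂ) : ℕ → OnePoint ℂ → OnePoint ℂ
  | 0, x => x
  | i + 1, x => g i (comp g i x)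

/-- The stereographic projection of the Riemann sphere onto the unit sphere of `ℂ × ℝ`. -/
noncomputable def stereo (x : OnePoint ℂ) : ℂ × ℝ :=
  match x with
  | none => (0, 1)
  | some z => (((2 / (1 + ‖z‖ ^ 2) : ℝ) : ℂ) * z, 1 - 2 / (1 + ‖z‖ ^ 2))

/-- The spherical (chordal) distance, for the maximum norm of `ℂ × ℝ`. -/
noncomputable def sdist (x y : OnePoint ℂ) : ℝ := dist (stereo x) (stereo y)

/-- The fibre iterates `f (T^[k-1] x) ∘ ... ∘ f (T x) ∘ f x` of the fibered map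
`(x, z) ↦ (T x, f x z)`. -/
def fibre {X : Type} (T : X → X) (f : X → OnePoint ℂ → OnePoint ℂ) :
    ℕ → X → OnePoint ℂ → OnePoint ℂ
  | 0, _, z => z
  | k + 1, x, z => f (T^[k] x) (fibre T f k x z)

/-- The post-critical set of the fibered map: the forward orbits of all critical values. -/
def postCritical {X : Type} (T : X → X) (f : X → OnePoint ℂ → OnePoint ℂ) :
    Set (X × OnePoint ℂ) :=
  {p | ∃ y c k, 1 ≤ k ∧ Critical (f y) c ∧ p = (T^[k] y, fibre T f k y c)}

/-- Hyperbolicity of the fibered map `(x, z) ↦ (T x, f x z)`, with explicit constants: every point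
`p` of the closure of the post-critical set lies in the Fatou set, and more precisely there is a
neighbourhood `W` of its base point such that in all fibres over `W` all iterates contract the
disc of radius `r` around `p.2` exponentially, with the constants `C` and `lam`. -/
def FiberHyperbolic {X : Type} [TopologicalSpace X] (T : X → X)
    (f : X → OnePoint ℂ → OnePoint ℂ) (r C lam : ℝ) : Prop :=
  ∀ p ∈ closure (postCritical T f), ∃ W ∈ nhds p.1, ∀ x ∈ W, ∀ z z' : OnePoint ℂ,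
    sdist z p.2 < r → sdist z' p.2 < r →
      ∀ k : ℕ, sdist (fibre T f k x z) (fibre T f k x z') ≤ C * lam ^ k * sdist z z'

/-- The coefficients of the polynomials `P x`, `Q x` depend continuously on `x`. -/
def ContCoeff {X : Type} [TopologicalSpace X] (P Q : X → ℂ[X]) : Prop :=
  ∀ k, Continuous (fun x => (P x).coeff k) ∧ Continuous fun x => (Q x).coeff k

/-- The coefficients of `(P', Q')` are within `ε` of those of `(P, Q)`. -/
def Close (ε : ℝ) (P Q P' Q' : ℂ[X]) : Prop :=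
  ∀ k, ‖P'.coeff k - P.coeff k‖ < ε ∧ ‖Q'.coeff k - Q.coeff k‖ < ε

/-- `P / Q` is in lowest terms, has degree `e` with `2 ≤ e ≤ d`, and its coefficients are bounded
by `A`. -/
def Bounded (d : ℕ) (A : ℝ) (e : ℕ) (P Q : ℂ[X]) : Prop :=
  2 ≤ e ∧ e ≤ d ∧ Pair e P Q ∧ ∀ k, ‖P.coeff k‖ ≤ A ∧ ‖Q.coeff k‖ ≤ A

/-- **Density of hyperbolicity for fibered rational maps.**

(I) Let `T` be a homeomorphism without periodic points of a compact totally disconnected space
`X`. Then the hyperbolic fibered rational maps `(x, z) ↦ (T x, P x (z) / Q x (z))` (fibres of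
degree at least two) are dense: every continuous family `(P x, Q x)` of coprime pairs, of locally
constant degree `D x ≥ 2`, is approximated, uniformly in `x` and keeping the degrees, by continuous
families whose fibered map is hyperbolic.

(II) Quantitative form, which allows periodic points. Given `d`, `A` and `ε` there are `n₀` and
`r`, `C`, `lam` such that the following holds for all families with degrees in `[2, d]` and
coefficients bounded by `A`.
(1) Over every compact totally disconnected space and every homeomorphism all of whose periods are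
at least `n₀`, the family is within `ε` of a hyperbolic one, with the constants `r`, `C`, `lam`.
(2) For every `n ≥ n₀`, all rational maps `P i / Q i`, `i < n`, are within `ε` of rational maps
`g i` of the same degrees, whose composition `g (n - 1) ∘ ... ∘ g 0` is a hyperbolic rational map.
(3) Every two-sided sequence of rational maps is within `ε` of a uniformly hyperbolic sequence.
(4) The same for one-sided sequences. -/
theorem result (ε : ℝ) (hε : 0 < ε) :
    (∀ (X : Type) [TopologicalSpace X] [CompactSpace X] [T2Space X] [TotallyDisconnectedSpace X]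
      (T : X ≃ₜ X), (∀ x : X, ∀ k : ℕ, 1 ≤ k → (⇑T)^[k] x ≠ x) →
      ∀ (D : X → ℕ) (P Q : X → ℂ[X]), IsLocallyConstant D → ContCoeff P Q →
      (∀ x, 2 ≤ D x ∧ Pair (D x) (P x) (Q x)) →
      ∃ (P' Q' : X → ℂ[X]) (f : X → OnePoint ℂ → OnePoint ℂ) (r C lam : ℝ), ContCoeff P' Q' ∧
        (∀ x, IsRational (D x) (P' x) (Q' x) (f x) ∧ Close ε (P x) (Q x) (P' x) (Q' x)) ∧
        0 < r ∧ 0 < lam ∧ lam < 1 ∧ FiberHyperbolic (⇑T) f r C lam) ∧
    ∀ (d : ℕ) (A : ℝ), ∃ (n₀ : ℕ) (r C lam : ℝ), 0 < r ∧ 0 < lam ∧ lam < 1 ∧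
      (∀ (X : Type) [TopologicalSpace X] [CompactSpace X] [T2Space X] [TotallyDisconnectedSpace X]
        (T : X ≃ₜ X), (∀ x : X, ∀ k : ℕ, 1 ≤ k → k < n₀ → (⇑T)^[k] x ≠ x) →
        ∀ (D : X → ℕ) (P Q : X → ℂ[X]), IsLocallyConstant D → ContCoeff P Q →
        (∀ x, Bounded d A (D x) (P x) (Q x)) →
        ∃ (P' Q' : X → ℂ[X]) (f : X → OnePoint ℂ → OnePoint ℂ), ContCoeff P' Q' ∧
          (∀ x, IsRational (D x) (P' x) (Q' x) (f x) ∧ Close ε (P x) (Q x) (P' x) (Q' x)) ∧
          FiberHyperbolic (⇑T) f r C lam) ∧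
      (∀ n : ℕ, n₀ ≤ n → ∀ (D : ℕ → ℕ) (P Q : ℕ → ℂ[X]), (∀ i < n, Bounded d A (D i) (P i) (Q i)) →
        ∃ (P' Q' : ℕ → ℂ[X]) (g : ℕ → OnePoint ℂ → OnePoint ℂ),
          (∀ i < n, IsRational (D i) (P' i) (Q' i) (g i) ∧ Close ε (P i) (Q i) (P' i) (Q' i)) ∧
          Hyperbolic (comp g n)) ∧
      (∀ (D : ℤ → ℕ) (P Q : ℤ → ℂ[X]), (∀ i, Bounded d A (D i) (P i) (Q i)) →
        ∃ (P' Q' : ℤ → ℂ[X]) (g : ℤ → OnePoint ℂ → OnePoint ℂ),
          (∀ i, IsRational (D i) (P' i) (Q' i) (g i) ∧ Close ε (P i) (Q i) (P' i) (Q' i)) ∧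
          FiberHyperbolic (fun i => i + 1) g r C lam) ∧
      (∀ (D : ℕ → ℕ) (P Q : ℕ → ℂ[X]), (∀ i, Bounded d A (D i) (P i) (Q i)) →
        ∃ (P' Q' : ℕ → ℂ[X]) (g : ℕ → OnePoint ℂ → OnePoint ℂ),
          (∀ i, IsRational (D i) (P' i) (Q' i) (g i) ∧ Close ε (P i) (Q i) (P' i) (Q' i)) ∧
          FiberHyperbolic (fun i => i + 1) g r C lam) := by
  have hfib : ∀ {X : Type} (T : X → X) (f : X → OnePoint ℂ → OnePoint ℂ) (k : ℕ) (x : X)
      (z : OnePoint ℂ), fibre T f k x z = Pool.Agent.Y334.FS.fb T f k x z := by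
    intro X T f k x z
    induction k with
    | zero => rfl
    | succ k ih =>
      show f _ (fibre T f k x z) = f _ (Pool.Agent.Y334.FS.fb T f k x z)
      rw [ih]
  have hPC : ∀ {X : Type} (T : X → X) (f : X → OnePoint ℂ → OnePoint ℂ),
      postCritical T f = Pool.Agent.Y334.FS.PC T f := by
    intro X T f
    ext p
    constructor
    · rintro ⟨y, c, k, h1, h2, h3⟩
      exact ⟨y, c, k, h1, h2, by rw [h3, hfib]⟩
    · rintro ⟨y, c, k, h1, h2, h3⟩
      exact ⟨y, c, k, h1, h2, by rw [h3, hfib]⟩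
  have hyp_of : ∀ {X : Type} [TopologicalSpace X] (T : X → X) (f : X → OnePoint ℂ → OnePoint ℂ)
      (r C lam : ℝ), Pool.Agent.Y334.FS.HypF T f r C lam → FiberHyperbolic T f r C lam := by
    intro X _ T f r C lam h p hp
    rw [hPC] at hp
    obtain ⟨W, hW, h1⟩ := h p hp
    refine ⟨W, hW, fun x hx z z' hz hz' k => ?_⟩
    rw [hfib, hfib]
    exact h1 x hx z z' hz hz' k
  have hrat : ∀ {e : ℕ} {f : OnePoint ℂ → OnePoint ℂ} {P Q : ℂ[X]},
      Pool.Agent.Helper114.Herman.IsRat f P Q → max P.natDegree Q.natDegree = e →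
      IsRational e P Q f := fun h he => ⟨⟨h.cop, he⟩, h.cont, h.eval⟩
  have hbd : ∀ {d : ℕ} {A : ℝ} {e : ℕ} {P Q : ℂ[X]}, Bounded d A e P Q →
      IsCoprime P Q ∧ max P.natDegree Q.natDegree = e ∧ 2 ≤ e ∧ e ≤ d ∧
        ∀ k, ‖P.coeff k‖ ≤ A ∧ ‖Q.coeff k‖ ≤ A :=
    fun h => ⟨h.2.2.1.1, h.2.2.1.2, h.1, h.2.1, h.2.2.2⟩
  have hlc : ∀ {X : Type} [TopologicalSpace X] {D : X → ℕ}, IsLocallyConstant D →
      Pool.Agent.Y334.FS.LC D := fun h => (IsLocallyConstant.iff_eventually_eq _).1 h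
  refine ⟨?_, ?_⟩
  · -- density
    intro X _ _ _ _ T hT D P Q hD hcont hx
    by_cases hne : Nonempty X
    swap
    · have hX : IsEmpty X := not_nonempty_iff.1 hne
      exact ⟨P, Q, fun x => hX.elim x, 1, 1, 1 / 2, hcont, fun x => hX.elim x, by norm_num,
        by norm_num, by norm_num, fun p => hX.elim p.1⟩
    -- bounds
    obtain ⟨d, hd⟩ : ∃ d : ℕ, ∀ x, D x ≤ d := by
      obtain ⟨d, hd⟩ := hD.range_finite.bddAbove
      exact ⟨d, fun x => hd (Set.mem_range_self x)⟩
    obtain ⟨A, hA⟩ : ∃ A : ℝ, ∀ x k, ‖(P x).coeff k‖ ≤ A ∧ ‖(Q x).coeff k‖ ≤ A := by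
      have h1 : ∀ k : ℕ, ∃ a : ℝ, 0 ≤ a ∧ ∀ x, ‖(P x).coeff k‖ ≤ a ∧ ‖(Q x).coeff k‖ ≤ a := by
        intro k
        obtain ⟨a, ha⟩ := isCompact_univ.exists_bound_of_continuousOn (hcont k).1.continuousOn
        obtain ⟨b, hb⟩ := isCompact_univ.exists_bound_of_continuousOn (hcont k).2.continuousOn
        obtain ⟨x₀⟩ := hne
        exact ⟨max a b, (norm_nonneg _).trans ((ha x₀ (Set.mem_univ _)).trans (le_max_left _ _)),
          fun x => ⟨(ha x (Set.mem_univ _)).trans (le_max_left _ _),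
            (hb x (Set.mem_univ _)).trans (le_max_right _ _)⟩⟩
      choose a ha0 ha using h1
      refine ⟨∑ k ∈ Finset.range (d + 1), a k, fun x k => ?_⟩
      by_cases hk : k < d + 1
      · have h2 := Finset.single_le_sum (f := a) (fun i _ => ha0 i) (Finset.mem_range.2 hk)
        exact ⟨(ha k x).1.trans h2, (ha k x).2.trans h2⟩
      · obtain ⟨e1, e2⟩ := Pool.Agent.Y334.FS.coeff_zero_of_deg (P := P x) (Q := Q x) (k := k)
          (e := d) (by rw [(hx x).2.2]; exact hd x) (by omega)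
        rw [e1, e2, norm_zero]
        exact ⟨Finset.sum_nonneg fun i _ => ha0 i, Finset.sum_nonneg fun i _ => ha0 i⟩
    obtain ⟨n, r, C, lam, hn, hr, hC, hl0, hl1, hmain⟩ := Pool.Agent.Y334.FS.main_fib d hε A
    obtain ⟨M, Rd, hMk⟩ := Pool.Agent.Y334.FS.exists_mk (T := T) hn fun x k hk _ => hT x k hk
    obtain ⟨P', Q', f, h1, h2, h3⟩ := hmain X T M Rd hMk (Pool.Agent.Y334.FS.selP_compact X) D P Q
      (hlc hD) hcont fun x => ⟨(hx x).2.1, (hx x).2.2, (hx x).1, hd x, hA x⟩
    exact ⟨P', Q', f, r, C, lam, h1, fun x => ⟨hrat (h2 x).1 (h2 x).2.1, (h2 x).2.2⟩, hr, hl0, hl1,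
      hyp_of _ _ _ _ _ h3⟩
  intro d A
  obtain ⟨n, r, C, lam, hn, hr, hC, hl0, hl1, hmain⟩ := Pool.Agent.Y334.FS.main_fib d hε A
  -- two-sided sequences
  have hZ : ∀ (D : ℤ → ℕ) (P Q : ℤ → ℂ[X]), (∀ i, Bounded d A (D i) (P i) (Q i)) →
        ∃ (P' Q' : ℤ → ℂ[X]) (g : ℤ → OnePoint ℂ → OnePoint ℂ),
          (∀ i, IsRational (D i) (P' i) (Q' i) (g i) ∧ Close ε (P i) (Q i) (P' i) (Q' i)) ∧
          FiberHyperbolic (fun i => i + 1) g r C lam := by
    intro D P Q hx
    obtain ⟨P', Q', f, h1, h2, h3⟩ := hmain ℤ Pool.Agent.Y334.FS.trZ _ _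
      (Pool.Agent.Y334.FS.mkZ hn) (Pool.Agent.Y334.FS.selP_discrete ℤ) D P Q
      (hlc (IsLocallyConstant.of_discrete D))
      (fun k => ⟨continuous_of_discreteTopology, continuous_of_discreteTopology⟩)
      fun x => hbd (hx x)
    exact ⟨P', Q', f, fun x => ⟨hrat (h2 x).1 (h2 x).2.1, (h2 x).2.2⟩, hyp_of _ _ _ _ _ h3⟩
  refine ⟨2 * n, r, C, lam, hr, hl0, hl1, ?_, ?_, hZ, ?_⟩
  · intro X _ _ _ _ T hT D P Q hD hcont hx
    obtain ⟨M, Rd, hMk⟩ := Pool.Agent.Y334.FS.exists_mk (T := T) hn hT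
    obtain ⟨P', Q', f, h1, h2, h3⟩ := hmain X T M Rd hMk (Pool.Agent.Y334.FS.selP_compact X) D P Q
      (hlc hD) hcont fun x => hbd (hx x)
    exact ⟨P', Q', f, h1, fun x => ⟨hrat (h2 x).1 (h2 x).2.1, (h2 x).2.2⟩, hyp_of _ _ _ _ _ h3⟩
  · intro N hN D P Q hx
    obtain ⟨X, _, _, _, _, _, T, x₀, val, hT0, hval, hvalk, hper⟩ :=
      Pool.Agent.Y334.FS.cyc_base N (by omega)
    obtain ⟨M, Rd, hMk⟩ := Pool.Agent.Y334.FS.exists_mk (T := T) hn
      fun x k hk1 hk2 => hper x k hk1 (by omega)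
    obtain ⟨P', Q', f, h1, h2, h3⟩ := hmain X T M Rd hMk (Pool.Agent.Y334.FS.selP_compact X)
      (fun x => D (val x)) (fun x => P (val x)) (fun x => Q (val x))
      (hlc (IsLocallyConstant.of_discrete _))
      (fun k => ⟨continuous_of_discreteTopology, continuous_of_discreteTopology⟩)
      fun x => hbd (hx _ (hval x))
    refine ⟨fun i => P' ((⇑T)^[i] x₀), fun i => Q' ((⇑T)^[i] x₀), fun i => f ((⇑T)^[i] x₀),
      fun i hi => ?_, ?_⟩
    · have h4 := h2 ((⇑T)^[i] x₀)
      rw [hvalk i hi] at h4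
      exact ⟨hrat h4.1 h4.2.1, h4.2.2⟩
    · have h5 : ∀ k : ℕ, comp (fun i => f ((⇑T)^[i] x₀)) k =
          Pool.Agent.Y334.FS.fb (⇑T) f k x₀ := by
        intro k
        induction k with
        | zero => rfl
        | succ k ih =>
          funext z
          show f ((⇑T)^[k] x₀) (comp _ k z) = f ((⇑T)^[k] x₀) _
          rw [ih]
      rw [h5]
      exact Pool.Agent.Y334.FS.hypT_of_cyc hr hC hl0 hl1 h3 (fun x => (h2 x).1.cont)
        (by omega) hT0
  · intro D P Q hx
    obtain ⟨P', Q', g, h1, h2⟩ := hZ (fun i => D i.toNat) (fun i => P i.toNat)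
      (fun i => Q i.toNat) fun i => hx _
    refine ⟨fun i => P' i, fun i => Q' i, fun i => g i, fun i => ?_, ?_⟩
    · have h3 := h1 (i : ℤ)
      simpa using h3
    · have hit : ∀ (k m : ℕ), (fun i : ℤ => i + 1)^[k] (m : ℤ) =
          (((fun i : ℕ => i + 1)^[k] m : ℕ) : ℤ) := by
        intro k m
        induction k with
        | zero => rfl
        | succ k ih =>
          rw [Function.iterate_succ_apply', Function.iterate_succ_apply', ih]
          push_cast
          rfl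
      have hf : ∀ (k m : ℕ) (z : OnePoint ℂ),
          fibre (fun i : ℤ => i + 1) g k (m : ℤ) z =
            fibre (fun i : ℕ => i + 1) (fun i : ℕ => g i) k m z := by
        intro k m z
        induction k with
        | zero => rfl
        | succ k ih =>
          show g _ (fibre (fun i : ℤ => i + 1) g k (m : ℤ) z) =
            g _ (fibre (fun i : ℕ => i + 1) (fun i : ℕ => g i) k m z)
          rw [ih, hit]
      intro p hp
      have hcont : Continuous fun q : ℕ × OnePoint ℂ => ((q.1 : ℤ), q.2) :=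
        (continuous_of_discreteTopology.comp continuous_fst).prodMk continuous_snd
      have hp' : ((p.1 : ℤ), p.2) ∈ closure (postCritical (fun i : ℤ => i + 1) g) := by
        have h3 := image_closure_subset_closure_image hcont (Set.mem_image_of_mem _ hp)
        refine closure_mono ?_ h3
        rintro _ ⟨q, ⟨y, c, k, hk, hc, rfl⟩, rfl⟩
        refine ⟨(y : ℤ), c, k, hk, hc, ?_⟩
        rw [hit, hf]
      obtain ⟨W, hW, h3⟩ := h2 _ hp'
      refine ⟨{p.1}, by rw [nhds_discrete]; exact rfl, ?_⟩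
      rintro x hx z z' hz hz' k
      rw [Set.mem_singleton_iff] at hx
      subst hx
      have h4 := h3 (p.1 : ℤ) (mem_of_mem_nhds hW) z z' hz hz' k
      rw [hf, hf] at h4
      exact h4

end Pool.Agent.Results.MP_8f2e1c_an.FiberedFatou
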