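import Mathlib
import Pool.Agent.TH864.ZO.ZL

/-!
# The exponents `n` for which `P (z ^ n) / Q (z ^ n)` is hyperbolic

Let `P / Q` be a rational map of degree `d ≥ 1` with `|P / Q|` not identically one on the unit
circle. Outside a sparse set of exponents the map `P (z ^ n) / Q (z ^ n)` is hyperbolic if and only
if `n` is not resonant: no critical value has a forward orbit which consists of roots of unity and
contains no critical point. This condition depends only on `n` modulo some `M`, and so the set of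
the exponents `n` for which `P (z ^ n) / Q (z ^ n)` is hyperbolic has a density, which is a rational
number.
-/

set_option autoImplicit false

open Set Filter Topology

namespace Pool.Agent.Results.MP_8f2e1c_an.HyperbolicExponents

/-- The orbit of `c` under `f` converges to an attracting periodic cycle (the notion used in the
frozen statement `S05373`). -/
def Attracted (f : OnePoint ℂ → OnePoint ℂ) (c : OnePoint ℂ) : Prop :=
  ∃ z : OnePoint ℂ, ∃ n : ℕ, 0 < n ∧ f^[n] z = z ∧
    (∃ U ∈ nhds z, ∀ w ∈ U,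
      Filter.Tendsto (fun k : ℕ => f^[n * k] w) Filter.atTop (nhds z)) ∧
    Filter.Tendsto (fun k : ℕ => f^[n * k] c) Filter.atTop (nhds z)

/-- `f` is the continuous map of the Riemann sphere given by `P / Q`. -/
def SphereMap (P Q : Polynomial ℂ) (f : OnePoint ℂ → OnePoint ℂ) : Prop :=
  Continuous f ∧ ∀ z : ℂ, Q.eval z ≠ 0 →
    f (OnePoint.some z) = OnePoint.some (P.eval z / Q.eval z)

/-- `P / Q` is in lowest terms and every critical point (point of the Riemann sphere where the map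
is not locally injective) has an orbit converging to an attracting periodic cycle, as in the frozen
statement `S05373`. -/
def Hyperbolic (P Q : Polynomial ℂ) : Prop :=
  IsCoprime P Q ∧ ∃ f : OnePoint ℂ → OnePoint ℂ, SphereMap P Q f ∧
    ∀ c : OnePoint ℂ, (¬ ∃ U ∈ nhds c, Set.InjOn f U) → Attracted f c

/-- The numerator `P' Q - P Q'` of the derivative of `P / Q`: its zeros are the finite critical
points of `P / Q`. -/
noncomputable def critPoly (P Q : Polynomial ℂ) : Polynomial ℂ :=
  Polynomial.derivative P * Q - P * Polynomial.derivative Q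

/-- `v` is a finite critical value of the maps `P (z ^ n) / Q (z ^ n)`, `n ≥ 2`: the value of `P / Q`
at `0`, at infinity (`d` is the degree of `P / Q`) or at a critical point of `P / Q`. -/
def CriticalValue (P Q : Polynomial ℂ) (d : ℕ) (v : ℂ) : Prop :=
  (Q.eval 0 ≠ 0 ∧ v = P.eval 0 / Q.eval 0) ∨ (Q.coeff d ≠ 0 ∧ v = P.coeff d / Q.coeff d) ∨
    ∃ y : ℂ, (critPoly P Q).eval y = 0 ∧ Q.eval y ≠ 0 ∧ v = P.eval y / Q.eval y

/-- The exponent `n` is resonant: the orbit of a critical value `v` under the map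
`g : z ↦ P (z ^ n) / Q (z ^ n)` consists of roots of unity and contains no critical point of the
map. -/
def Resonant (P Q : Polynomial ℂ) (d n : ℕ) : Prop :=
  ∃ v : ℂ, CriticalValue P Q d v ∧ ∀ g : ℂ → ℂ, (∀ z, g z = P.eval (z ^ n) / Q.eval (z ^ n)) →
    ∀ j : ℕ, (∃ k : ℕ, 0 < k ∧ (g^[j] v) ^ k = 1) ∧ (critPoly P Q).eval ((g^[j] v) ^ n) ≠ 0

lemma resonant_iff (P Q : Polynomial ℂ) (d n : ℕ) :
    Resonant P Q d n ↔ Pool.Agent.TH864.ZO.Res P Q d n := by
  have hst : ∀ z, Pool.Agent.TH864.ZO.st P Q n 1 z = P.eval (z ^ n) / Q.eval (z ^ n) := by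
    intro z; simp [Pool.Agent.TH864.ZO.st]
  constructor
  · rintro ⟨v, hv, h⟩
    exact ⟨v, hv, h _ hst⟩
  · rintro ⟨v, hv, h⟩
    refine ⟨v, hv, fun g hg => ?_⟩
    have : g = Pool.Agent.TH864.ZO.st P Q n 1 := by
      funext z; rw [hg, hst]
    rw [this]
    exact h

lemma hyperbolic_iff (P Q : Polynomial ℂ) :
    Hyperbolic P Q ↔ Pool.Agent.H762R2.Rt.Hyp P Q := by
  constructor
  · rintro ⟨h1, f, ⟨h2, h3⟩, h4⟩
    exact ⟨h1, f, h2, h3, h4⟩
  · rintro ⟨h1, f, h2, h3, h4⟩
    exact ⟨h1, f, ⟨h2, h3⟩, h4⟩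

/-- Let `P / Q` be a rational map in lowest terms, of degree `d ≥ 1`, with `|P / Q|` not identically
one on the unit circle. There are `M ≥ 1`, `K` and a set `S` of exponents with at most `K` members in
each window of length `L` far enough out, for every `L`, such that:

(1) whether `n` is resonant depends only on `n` modulo `M`;

(2) for all `n` outside `S` the map `P (z ^ n) / Q (z ^ n)` is hyperbolic if and only if `n` is not
resonant;

(3) all but finitely many resonant `n`, those in `S` included, give maps that are not hyperbolic;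

(4) the set of the `n` for which `P (z ^ n) / Q (z ^ n)` is hyperbolic has a density: the proportion
of the residues modulo `M` that are not resonant. -/
theorem result (P Q : Polynomial ℂ) (hc : IsCoprime P Q) (d : ℕ)
    (hd : d = max P.natDegree Q.natDegree) (hd1 : 1 ≤ d)
    (hne : ∃ u : ℂ, ‖u‖ = 1 ∧ ‖P.eval u‖ ≠ ‖Q.eval u‖) :
    ∃ M K : ℕ, ∃ S : Set ℕ, 0 < M ∧
      (∀ L : ℕ, ∃ N₀ : ℕ, ∀ N : ℕ, N₀ ≤ N → (S ∩ Set.Ico N (N + L)).ncard ≤ K) ∧
      (∀ n m : ℕ, n ≡ m [MOD M] → (Resonant P Q d n ↔ Resonant P Q d m)) ∧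
      (∀ n : ℕ, n ∉ S →
        (Hyperbolic (Polynomial.expand ℂ n P) (Polynomial.expand ℂ n Q) ↔ ¬ Resonant P Q d n)) ∧
      (∃ n₀ : ℕ, ∀ n : ℕ, n₀ ≤ n → Resonant P Q d n →
        ¬ Hyperbolic (Polynomial.expand ℂ n P) (Polynomial.expand ℂ n Q)) ∧
      Tendsto (fun N : ℕ => (({n : ℕ | Hyperbolic (Polynomial.expand ℂ n P)
        (Polynomial.expand ℂ n Q)} ∩ Set.Iio N).ncard : ℝ) / N) atTop
        (𝓝 (({a : ℕ | a < M ∧ ¬ Resonant P Q d a}.ncard : ℝ) / M)) := by
  simp only [resonant_iff, hyperbolic_iff]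
  obtain ⟨M, K, n₀, C, hM, h1, h2, h3, h4, h5⟩ :=
    Pool.Agent.TH864.ZO.zero_one hc hd (by omega : 0 < d) hne
  refine ⟨M, K, {n | n < n₀} ∪ {n : ℕ | Pool.Agent.TH864.ZO.Exc P Q d (C * (Real.log n / n)) n},
    hM, ?_, h1, ?_, ⟨n₀, h2⟩, h5⟩
  · intro L
    obtain ⟨N₀, hN₀⟩ := h4 L
    refine ⟨max N₀ n₀, fun N hN => ?_⟩
    refine le_trans (le_of_eq ?_) (hN₀ N (le_trans (le_max_left _ _) hN))
    congr 1
    ext n
    simp only [mem_inter_iff, mem_union, mem_setOf_eq, mem_Ico]
    constructor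
    · rintro ⟨h | h, h'⟩
      · exact absurd (lt_of_lt_of_le h (le_trans (le_max_right _ _) hN)) (not_lt.2 h'.1)
      · exact ⟨h, h'⟩
    · rintro ⟨h, h'⟩
      exact ⟨Or.inr h, h'⟩
  · intro n hn
    simp only [mem_union, mem_setOf_eq, not_or, not_lt] at hn
    exact ⟨fun h h' => h2 n hn.1 h' h, fun h => h3 n hn.1 h hn.2⟩

end Pool.Agent.Results.MP_8f2e1c_an.HyperbolicExponents
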