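import Mathlib
import Pool.Prelude.Def_F_c31e40fa
import Pool.Agent.Y298.GA.RatGen
import Pool.Agent.Y298.CA.Typ
import Pool.Agent.Y657.GA.RBAS
import Pool.Agent.Y876.GA.Resc
import Pool.Agent.Y340.GA.Rhyp
import Pool.Agent.Y70.GA.Rmea
import Pool.Agent.Y275.GA.Rshe

/-!
# Density of hyperbolicity, with powers, in the whole space of rational maps near Collet-Eckmann
unicritical polynomials
-/

set_option autoImplicit false

open Polynomial Filter Topology MeasureTheory Metric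

namespace Pool.Agent.Results.MP_8f2e1c_an.NearColletEckmann

open Pool.Agent.H713R2 (IsExteriorMap)

/-- `P / Q` is in lowest terms and every critical point (point of the Riemann sphere where the map
is not locally injective) has an orbit converging to an attracting periodic cycle. This is word
for word the condition of the frozen statement `S05373`. -/
def Hyperbolic (P Q : Polynomial ℂ) : Prop :=
  IsCoprime P Q ∧ ∃ f : OnePoint ℂ → OnePoint ℂ, Continuous f ∧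
    (∀ z : ℂ, Q.eval z ≠ 0 →
      f (OnePoint.some z) = OnePoint.some (P.eval z / Q.eval z)) ∧
    ∀ c : OnePoint ℂ, (¬ ∃ U ∈ nhds c, Set.InjOn f U) →
      ∃ z : OnePoint ℂ, ∃ n : ℕ, 0 < n ∧ f^[n] z = z ∧
        (∃ U ∈ nhds z, ∀ w ∈ U,
          Filter.Tendsto (fun k : ℕ => f^[n * k] w) Filter.atTop (nhds z)) ∧
        Filter.Tendsto (fun k : ℕ => f^[n * k] c) Filter.atTop (nhds z)

/-- `P / Q` is a hyperbolic rational map of degree `d`. -/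
def HyperbolicOfDegree (d : ℕ) (P Q : Polynomial ℂ) : Prop :=
  max P.natDegree Q.natDegree = d ∧ Hyperbolic P Q

/-- `P` and `Q` have degree at most `d`, and the coefficients of `P / Q` are at distance at most `r`
from those of `(z ^ d + c₀) / 1`. -/
def Near (d : ℕ) (c₀ : ℂ) (r : ℝ) (P Q : Polynomial ℂ) : Prop :=
  P.natDegree ≤ d ∧ Q.natDegree ≤ d ∧
    (∀ i, ‖P.coeff i - (X ^ d + C c₀ : ℂ[X]).coeff i‖ ≤ r) ∧
    ∀ i, ‖Q.coeff i - (1 : ℂ[X]).coeff i‖ ≤ r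

/-- The denominators `1 + b 0 X + … + b (d - 1) X ^ d`. -/
noncomputable def den {d : ℕ} (b : Fin d → ℂ) : ℂ[X] := 1 + ∑ k : Fin d, C (b k) * X ^ ((k : ℕ) + 1)

/-- The numerators `X ^ d + c₀ + a 0 + a 1 X + … + a d X ^ d`. -/
noncomputable def num {d : ℕ} (c₀ : ℂ) (a : Fin (d + 1) → ℂ) : ℂ[X] :=
  X ^ d + C c₀ + ∑ k : Fin (d + 1), C (a k) * X ^ (k : ℕ)

/-- Quantitative density of hyperbolicity in the space of all rational maps of degree `d` near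
`z ^ d + c₀`, with the exponent `E₀`: at distance `r ^ σ`, `σ < E₀ / 2`, from every map at distance
`r`; in area, along all families `g + t`, `|t| ≤ r`, with `g` at distance `r`; in volume, in the ball
of radius `r` (with respect to the `2 d + 1` coefficients normalised by `Q 0 = 1`). -/
def Dense (d : ℕ) (c₀ : ℂ) (E₀ : ℝ) : Prop :=
  (∀ σ : ℝ, 1 ≤ σ → σ < E₀ / 2 → ∃ δ : ℝ, 0 < δ ∧ ∀ r : ℝ, 0 < r → r ≤ δ →
    ∀ P Q : ℂ[X], Near d c₀ r P Q →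
      ∃ t : ℂ, ‖t‖ ≤ r ^ σ ∧ HyperbolicOfDegree d (P + C t * Q) Q) ∧
  (∀ E : ℝ, 0 ≤ E → E < E₀ → ∃ K δ : ℝ, 0 < K ∧ 0 < δ ∧
    ∀ r : ℝ, 0 < r → r ≤ δ → ∀ P Q : ℂ[X], Near d c₀ r P Q →
      volume {t : ℂ | ‖t‖ ≤ r ∧ ¬ HyperbolicOfDegree d (P + C t * Q) Q} ≤
        ENNReal.ofReal (K * r ^ E)) ∧
  (∀ κ : ℝ, 0 ≤ κ → κ < E₀ - 2 → ∃ K δ : ℝ, 0 < K ∧ 0 < δ ∧
    ∀ r : ℝ, 0 < r → r ≤ δ →
      volume {x : (Fin d → ℂ) × (Fin (d + 1) → ℂ) | ‖x‖ ≤ r ∧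
        ¬ HyperbolicOfDegree d (num c₀ x.2) (den x.1)} ≤
        ENNReal.ofReal (K * r ^ κ) *
          volume (closedBall (0 : (Fin d → ℂ) × (Fin (d + 1) → ℂ)) r))

/-- The polynomial `z ^ d + c`. -/
def f (d : ℕ) (c : ℂ) : ℂ → ℂ := fun z => z ^ d + c

/-- The Collet-Eckmann condition with explicit constants: `c` lies in the Multibrot set, and the
derivatives of the iterates of `f d c` at the critical value `c` are at least `lam ^ n / C₁`. -/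
def ColletEckmann (d : ℕ) (C₁ lam : ℝ) (c : ℂ) : Prop :=
  c ∈ N62a1eb23.multibrotSet d ∧ ∀ n : ℕ, lam ^ n ≤ C₁ * ‖deriv ((f d c)^[n]) c‖

/-- Quantitative density of hyperbolicity in the space of all rational maps of degree `d` near
every Collet-Eckmann unicritical polynomial `z ^ d + c₀`; with the largest exponents if the critical
value has a Lyapunov exponent, in particular for harmonic-almost every point `c₀` of the boundary of
the Multibrot set. -/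
theorem result (d : ℕ) (hd : 2 ≤ d) :
    (∀ (C₁ lam : ℝ) (c₀ : ℂ), 1 ≤ C₁ → 1 < lam → ColletEckmann d C₁ lam c₀ →
      2 < 2 / (1 - Real.log lam / (d * Real.log (2 * d))) ∧
      Dense d c₀ (2 / (1 - Real.log lam / (d * Real.log (2 * d))))) ∧
    (∀ (C₁ lam C₂ β : ℝ) (c₀ : ℂ), 1 ≤ C₁ → 1 < lam → 0 ≤ β → ColletEckmann d C₁ lam c₀ →
      (∀ n : ℕ, 1 ≤ C₂ * (‖(f d c₀)^[n] c₀‖ * ‖deriv ((f d c₀)^[n]) c₀‖ ^ β)) →
      Dense d c₀ (2 * d / ((d - 1) * (1 + β)))) ∧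
    (∀ (χ : ℝ) (c₀ : ℂ), 0 < χ → c₀ ∈ N62a1eb23.multibrotSet d →
      Tendsto (fun n : ℕ => Real.log ‖deriv ((f d c₀)^[n]) c₀‖ / n) atTop (𝓝 χ) →
      Dense d c₀ (2 * d / (d - 1))) ∧
    (∃ ψ : ℂ → ℂ, IsExteriorMap (N62a1eb23.multibrotSet d) ψ) ∧
    ∀ ψ : ℂ → ℂ, IsExteriorMap (N62a1eb23.multibrotSet d) ψ →
      ∀ᵐ θ : ℝ, ∃ c₀ ∈ frontier (N62a1eb23.multibrotSet d),
        Tendsto (fun r : ℝ => ψ (r * Complex.exp (θ * Complex.I))) (𝓝[>] 1) (𝓝 c₀) ∧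
        Dense d c₀ (2 * d / (d - 1)) := by
  have hdR : (2 : ℝ) ≤ d := by exact_mod_cast hd
  have hd1 : 0 < (d : ℝ) - 1 := by linarith
  have hb := Pool.Agent.Y657.GA.rbas
  have he := Pool.Agent.Y876.GA.resc hb
  have hh := Pool.Agent.Y340.GA.rhyp hb he
  have hm := Pool.Agent.Y70.GA.rmea hb
  have hs := Pool.Agent.Y275.GA.rshe
  have dense : ∀ (c₀ : ℂ) (E₀ : ℝ), c₀ ∈ N62a1eb23.multibrotSet d →
      (∀ E : ℝ, 0 ≤ E → E < E₀ → Pool.Agent.Y298.GA.AR d c₀ E) → Dense d c₀ E₀ := by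
    intro c₀ E₀ hc₀ hA
    have h := Pool.Agent.Y298.GA.thinE hb hh hm hs hd (Pool.Agent.TH279.MD.norm_le_two hd hc₀) hA
    refine ⟨?_, ?_, ?_⟩
    · intro σ hσ1 hσ
      obtain ⟨δ, hδ, H⟩ := h.dens σ hσ1 hσ
      exact ⟨δ, hδ, fun r hr hrδ P Q hPQ => H r hr hrδ P Q ⟨hPQ.1, hPQ.2.1, hPQ.2.2.1, hPQ.2.2.2⟩⟩
    · intro E hE0 hE
      obtain ⟨K, δ, hK, hδ, H⟩ := h.area E hE0 hE
      exact ⟨K, δ, hK, hδ, fun r hr hrδ P Q hPQ =>
        H r hr hrδ P Q ⟨hPQ.1, hPQ.2.1, hPQ.2.2.1, hPQ.2.2.2⟩⟩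
    · intro κ hκ0 hκ
      exact h.vol κ hκ0 hκ
  have key : ∀ (χ : ℝ) (c₀ : ℂ), 0 < χ → c₀ ∈ N62a1eb23.multibrotSet d →
      Tendsto (fun n : ℕ => Real.log ‖deriv ((f d c₀)^[n]) c₀‖ / n) atTop (𝓝 χ) →
      Dense d c₀ (2 * d / (d - 1)) := by
    intro χ c₀ hχ hc₀ hlim
    have h : Pool.Agent.Y298.CA.Lyap d χ c₀ := ⟨hχ, hc₀, hlim⟩
    exact dense c₀ _ hc₀ fun E hE0 hE => Pool.Agent.Y298.GA.ar_lyap hd h hE0 hE
  refine ⟨?_, ?_, key, ?_⟩
  · intro C₁ lam c₀ hC₁ hlam h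
    have hce := Pool.Agent.Y298.SH.CD.cep_of_mem hd hC₁ hlam h.1 h.2
    have hlog : 0 < Real.log (2 * d) := Real.log_pos (by linarith)
    have hll : 0 < Real.log lam := Real.log_pos hlam
    have hle : Real.log lam ≤ Real.log (2 * d) := Real.log_le_log (by linarith) hce.lam_le
    have hq0 : 0 < Real.log lam / (d * Real.log (2 * d)) := by positivity
    have hq1 : Real.log lam / (d * Real.log (2 * d)) < 1 := by
      rw [div_lt_one (by positivity)]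
      nlinarith
    refine ⟨?_, dense c₀ _ h.1 ?_⟩
    · rw [lt_div_iff₀ (by linarith)]
      linarith
    · intro E hE0 hE
      refine Pool.Agent.Y298.GA.ar_ce hce hE0 ?_
      rwa [lt_div_iff₀ (by linarith)] at hE
  · intro C₁ lam C₂ β c₀ hC₁ hlam hβ h hrec
    have hce := Pool.Agent.Y298.SH.CD.cep_of_mem hd hC₁ hlam h.1 h.2
    refine dense c₀ _ h.1 ?_
    intro E hE0 hE
    refine Pool.Agent.Y298.GA.ar_rec (C₂ := C₂) hce hrec hβ hE0 ?_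
    rw [lt_div_iff₀ (by positivity)] at hE
    rw [lt_div_iff₀ hd1]
    linarith
  obtain ⟨β, hβ⟩ := Pool.Agent.H713R2.exists_beta (d := d) hd
  refine ⟨⟨_, Pool.Agent.H713R2.exteriorMap_of_beta hβ⟩, ?_⟩
  intro ψ hψ
  filter_upwards [Pool.Agent.Y272.TY.ae_neg' (Pool.Agent.Y272.TY.typical_all hd hβ)] with θ hθ
  obtain ⟨c₀, A, R, h⟩ := hθ
  obtain ⟨h1, h2, h3⟩ := Pool.Agent.Y298.CA.lyap_of_typ hd hβ h
  exact ⟨c₀, h.frontier hd hβ, h.tendsto_psi hβ hψ, key _ c₀ h1 h2 h3⟩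

end Pool.Agent.Results.MP_8f2e1c_an.NearColletEckmann
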