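import Mathlib
import Pool.Agent.Y334.SR.Ext

set_option autoImplicit false

open Polynomial

namespace Pool.Agent.Results.MP_8f2e1c_an.StableRational

/-- `f` is the rational map `P / Q` of the Riemann sphere, in lowest terms and of degree `d`. -/
def IsRational (d : ℕ) (P Q : ℂ[X]) (f : OnePoint ℂ → OnePoint ℂ) : Prop :=
  IsCoprime P Q ∧ max P.natDegree Q.natDegree = d ∧ Continuous f ∧
    ∀ z : ℂ, Q.eval z ≠ 0 → f (OnePoint.some z) = OnePoint.some (P.eval z / Q.eval z)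

/-- `f` is a rational map of degree at least two and at most `d`. -/
def Rat (d : ℕ) (f : OnePoint ℂ → OnePoint ℂ) : Prop :=
  ∃ (e : ℕ) (P Q : ℂ[X]), 2 ≤ e ∧ e ≤ d ∧ IsRational e P Q f

/-- The critical points of a rational map: the points where it is not locally injective. -/
def Critical (f : OnePoint ℂ → OnePoint ℂ) (c : OnePoint ℂ) : Prop :=
  ¬ ∃ U ∈ nhds c, Set.InjOn f U

/-- Hyperbolicity of one map: every critical point has an orbit converging to an attracting
periodic cycle. This is word for word the condition of the frozen statement `S05373`. -/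
def Hyperbolic (f : OnePoint ℂ → OnePoint ℂ) : Prop :=
  ∀ c : OnePoint ℂ, Critical f c →
    ∃ z : OnePoint ℂ, ∃ n : ℕ, 0 < n ∧ f^[n] z = z ∧
      (∃ U ∈ nhds z, ∀ w ∈ U,
        Filter.Tendsto (fun k : ℕ => f^[n * k] w) Filter.atTop (nhds z)) ∧
      Filter.Tendsto (fun k : ℕ => f^[n * k] c) Filter.atTop (nhds z)

/-- The stereographic projection of the Riemann sphere onto the unit sphere of `ℂ × ℝ`. -/
noncomputable def stereo (x : OnePoint ℂ) : ℂ × ℝ :=
  match x with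
  | none => (0, 1)
  | some z => (((2 / (1 + ‖z‖ ^ 2) : ℝ) : ℂ) * z, 1 - 2 / (1 + ‖z‖ ^ 2))

/-- The spherical (chordal) distance, for the maximum norm of `ℂ × ℝ`. -/
noncomputable def sdist (x y : OnePoint ℂ) : ℝ := dist (stereo x) (stereo y)

/-- `f` is Lipschitz with constant `L`. -/
def Lip (L : ℝ) (f : OnePoint ℂ → OnePoint ℂ) : Prop :=
  ∀ z z', sdist (f z) (f z') ≤ L * sdist z z'

/-- The fibre iterates `f (T^[k-1] x) ∘ ... ∘ f (T x) ∘ f x` of the fibered map
`(x, z) ↦ (T x, f x z)`. -/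
def fibre {X : Type} (T : X → X) (f : X → OnePoint ℂ → OnePoint ℂ) :
    ℕ → X → OnePoint ℂ → OnePoint ℂ
  | 0, _, z => z
  | k + 1, x, z => f (T^[k] x) (fibre T f k x z)

/-- The post-critical set of the fibered map: the forward orbits of all critical values. -/
def postCritical {X : Type} (T : X → X) (f : X → OnePoint ℂ → OnePoint ℂ) :
    Set (X × OnePoint ℂ) :=
  {p | ∃ y c k, 1 ≤ k ∧ Critical (f y) c ∧ p = (T^[k] y, fibre T f k y c)}

/-- Hyperbolicity of the fibered map `(x, z) ↦ (T x, f x z)`, with explicit constants: every point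
`p` of the closure of the post-critical set lies in the Fatou set, and more precisely there is a
neighbourhood `W` of its base point such that in all fibres over `W` all iterates contract the
disc of radius `r` around `p.2` exponentially, with the constants `C` and `lam`. -/
def FiberHyperbolic {X : Type} [TopologicalSpace X] (T : X → X)
    (f : X → OnePoint ℂ → OnePoint ℂ) (r C lam : ℝ) : Prop :=
  ∀ p ∈ closure (postCritical T f), ∃ W ∈ nhds p.1, ∀ x ∈ W, ∀ z z' : OnePoint ℂ,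
    sdist z p.2 < r → sdist z' p.2 < r →
      ∀ k : ℕ, sdist (fibre T f k x z) (fibre T f k x z') ≤ C * lam ^ k * sdist z z'

/-- The fibered map is hyperbolic: `FiberHyperbolic` for some constants. -/
def IsHyp {X : Type} [TopologicalSpace X] (T : X → X) (f : X → OnePoint ℂ → OnePoint ℂ) : Prop :=
  ∃ r C lam : ℝ, 0 < r ∧ 0 < lam ∧ lam < 1 ∧ FiberHyperbolic T f r C lam

/-- The Moebius map `w ↦ w / (1 + γ w) + β` of the Riemann sphere. -/
noncomputable def mob (β γ : ℂ) (w : OnePoint ℂ) : OnePoint ℂ :=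
  match w with
  | none => if γ = 0 then none else some (1 / γ + β)
  | some z => if 1 + γ * z = 0 then none else some (z / (1 + γ * z) + β)

/-- `β` and `γ` are continuous and smaller than `δ`. -/
def Small {X : Type} [TopologicalSpace X] (δ : ℝ) (β γ : X → ℂ) : Prop :=
  Continuous β ∧ Continuous γ ∧ ∀ x, ‖β x‖ < δ ∧ ‖γ x‖ < δ

/-- The family `f` composed with the Moebius maps `mob (β x) (γ x)`. -/
noncomputable def perturb {X : Type} (f : X → OnePoint ℂ → OnePoint ℂ) (β γ : X → ℂ) :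
    X → OnePoint ℂ → OnePoint ℂ :=
  fun x z => mob (β x) (γ x) (f x z)

/-- All critical orbits of `f`, perturbed in an arbitrary way by less than `δ` at each step, remain
within `η` of the unperturbed orbits. -/
def Follows {X : Type} (T : X → X) (f : X → OnePoint ℂ → OnePoint ℂ) (η δ : ℝ) : Prop :=
  ∀ g : X → OnePoint ℂ → OnePoint ℂ, (∀ x z, sdist (g x z) (f x z) < δ) →
    ∀ x c, Critical (f x) c → ∀ k : ℕ, sdist (fibre T g k x c) (fibre T f k x c) < η

/-- For every critical point and every time `k` between `1` and `N`, the positions at the time `k`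
of the orbits of the critical point under all the Moebius perturbations of size `δ` omit a ball of
radius `r`. -/
def Omits {X : Type} [TopologicalSpace X] (T : X → X) (f : X → OnePoint ℂ → OnePoint ℂ)
    (δ r : ℝ) (N : ℕ) : Prop :=
  ∀ x c, Critical (f x) c → ∀ k : ℕ, 1 ≤ k → k ≤ N → ∃ y, ∀ β γ : X → ℂ, Small δ β γ →
    r ≤ sdist (fibre T (perturb f β γ) k x c) y

/-- Structural stability with constants: all Moebius perturbations of size `δ` are conjugate to the
fibered map by fibre homeomorphisms `η`-close to the identity. -/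
def StructStable {X : Type} [TopologicalSpace X] (T : X → X)
    (f : X → OnePoint ℂ → OnePoint ℂ) (η δ : ℝ) : Prop :=
  ∀ β γ : X → ℂ, Small δ β γ →
    ∃ h : X → (OnePoint ℂ ≃ₜ OnePoint ℂ), (∀ x z, sdist (h x z) z < η) ∧
      ∀ x z, h (T x) (f x z) = perturb f β γ x (h x z)

/-- The product of `T` with the cyclic rotation of order `n`. The perturbations over this system of
the fibered map given by `T` and `f` are its `n`-periodic perturbations. -/
def cyc {X : Type} (T : X → X) (n : ℕ) : X × ZMod n → X × ZMod n := fun p => (T p.1, p.2 + 1)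

/-- **Stable fibered rational maps are hyperbolic.**

(I) Over every base without periodic points a fibered rational map is hyperbolic if and only if its
critical orbits are stable under all small perturbations, if and only if the positions of the
critical orbits under the small Moebius perturbations omit balls of a fixed radius. Structurally
stable fibered rational maps are hyperbolic.

(II) Over an arbitrary base (for instance one point) the same holds if the fibered map is perturbed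
over all the extensions of the base, or over its products with the rotations of order `n` (that is,
`n`-periodically in time), for all `n` or for unboundedly many `n`.

(III) Quantitative form: it is enough that the perturbed critical orbits of size `K log n / n` omit
balls of radius `r₀` until the time `n`; the constants of hyperbolicity depend only on `n`, on `r₀`
and on the Lipschitz constant `L`. For cycles of `n` rational maps the compositions are then
hyperbolic rational maps, and one rational map is hyperbolic as soon as its critical orbits are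
stable in this sense under the `n`-periodic perturbations of size `K log n / n`.

(IV) Conversely hyperbolic fibered rational maps are stable, uniformly, over every base.

(V) One rational map is hyperbolic, in the sense of the frozen statement `S05373`, if and only if it
is hyperbolic as a fibered map over one point. -/
theorem result :
    (∀ d : ℕ, ∃ η₀ : ℝ, 0 < η₀ ∧ ∀ (X : Type) [TopologicalSpace X] [NormalSpace X] [T1Space X]
      (T : X → X), Continuous T → ∀ f : X → OnePoint ℂ → OnePoint ℂ,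
      (Continuous fun p : X × OnePoint ℂ => f p.1 p.2) → (∀ x, Rat d (f x)) →
      (CompactSpace X ∨ ∃ L, ∀ x, Lip L (f x)) →
      ((∀ x : X, ∀ k : ℕ, 1 ≤ k → T^[k] x ≠ x) →
        (IsHyp T f ↔ ∀ η : ℝ, 0 < η → ∃ δ : ℝ, 0 < δ ∧ Follows T f η δ) ∧
        (IsHyp T f ↔ ∃ δ r : ℝ, 0 < δ ∧ 0 < r ∧ ∀ N, Omits T f δ r N) ∧
        (∀ δ : ℝ, 0 < δ → StructStable T f η₀ δ → IsHyp T f)) ∧
      (IsHyp T f ↔ ∀ η : ℝ, 0 < η → ∃ δ : ℝ, 0 < δ ∧ ∀ (Y : Type) (S : Y → Y) (π : Y → X),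
        (∀ y, π (S y) = T (π y)) → Follows S (fun y => f (π y)) η δ) ∧
      (IsHyp T f ↔ ∃ δ r : ℝ, 0 < δ ∧ 0 < r ∧
        ∀ n N : ℕ, Omits (cyc T n) (fun p => f p.1) δ r N) ∧
      (IsHyp T f ↔ ∃ δ r : ℝ, 0 < δ ∧ 0 < r ∧
        ∀ n₁ : ℕ, ∃ n : ℕ, n₁ ≤ n ∧ Omits (cyc T n) (fun p => f p.1) δ r n) ∧
      (∀ δ : ℝ, 0 < δ → (∀ n₁ : ℕ, ∃ n : ℕ, n₁ ≤ n ∧
        StructStable (cyc T n) (fun p => f p.1) η₀ δ) → IsHyp T f)) ∧
    (∀ L r₀ : ℝ, 0 < r₀ → ∃ (K : ℝ) (n₀ : ℕ), 0 < K ∧ ∀ n : ℕ, n₀ ≤ n →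
      ∃ r C lam : ℝ, 0 < r ∧ 0 < lam ∧ lam < 1 ∧ ∀ d : ℕ,
      (∀ (X : Type) [TopologicalSpace X] [NormalSpace X] [T1Space X] (T : X → X), Continuous T →
        ∀ f : X → OnePoint ℂ → OnePoint ℂ, (Continuous fun p : X × OnePoint ℂ => f p.1 p.2) →
        (∀ x, Rat d (f x) ∧ Lip L (f x)) →
        ((∀ x : X, ∀ k : ℕ, 1 ≤ k → k < n → T^[k] x ≠ x) →
          Omits T f (K * Real.log n / n) r₀ n → FiberHyperbolic T f r C lam) ∧
        (Omits (cyc T n) (fun p => f p.1) (K * Real.log n / n) r₀ n →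
          FiberHyperbolic T f r C lam)) ∧
      (∀ g : ZMod n → OnePoint ℂ → OnePoint ℂ, (∀ i, Rat d (g i) ∧ Lip L (g i)) →
        Omits (fun i => i + 1) g (K * Real.log n / n) r₀ n →
        ∀ i, Hyperbolic (fibre (fun i => i + 1) g n i)) ∧
      (∀ F : OnePoint ℂ → OnePoint ℂ, Rat d F → Lip L F →
        Omits (fun i : ZMod n => i + 1) (fun _ => F) (K * Real.log n / n) r₀ n → Hyperbolic F)) ∧
    (∀ r C lam η : ℝ, 0 < r → 0 < lam → lam < 1 → 0 < η → ∃ δ : ℝ, 0 < δ ∧
      ∀ (X : Type) [TopologicalSpace X] (T : X → X) (f : X → OnePoint ℂ → OnePoint ℂ),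
      FiberHyperbolic T f r C lam → Follows T f η δ) ∧
    (∀ (d : ℕ) (F : OnePoint ℂ → OnePoint ℂ), Rat d F →
      (Hyperbolic F ↔ IsHyp (id : Unit → Unit) (fun _ => F))) := by
  have hfib : ∀ {X : Type} (T : X → X) (f : X → OnePoint ℂ → OnePoint ℂ) (k : ℕ) (x : X)
      (z : OnePoint ℂ), fibre T f k x z = Pool.Agent.Y334.FS.fb T f k x z := by
    intro X T f k x z
    induction k with
    | zero => rfl
    | succ k ih =>
      show f _ (fibre T f k x z) = f _ (Pool.Agent.Y334.FS.fb T f k x z)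
      rw [ih]
  have hPC : ∀ {X : Type} (T : X → X) (f : X → OnePoint ℂ → OnePoint ℂ),
      postCritical T f = Pool.Agent.Y334.FS.PC T f := by
    intro X T f
    ext p
    constructor
    · rintro ⟨y, c, k, h1, h2, h3⟩
      exact ⟨y, c, k, h1, h2, by rw [h3, hfib]⟩
    · rintro ⟨y, c, k, h1, h2, h3⟩
      exact ⟨y, c, k, h1, h2, by rw [h3, hfib]⟩
  have hyp_iff : ∀ {X : Type} [TopologicalSpace X] (T : X → X) (f : X → OnePoint ℂ → OnePoint ℂ)
      (r C lam : ℝ), FiberHyperbolic T f r C lam ↔ Pool.Agent.Y334.FS.HypF T f r C lam := by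
    intro X _ T f r C lam
    constructor
    · intro h p hp
      rw [← hPC] at hp
      obtain ⟨W, hW, h1⟩ := h p hp
      refine ⟨W, hW, fun x hx z z' hz hz' k => ?_⟩
      rw [← hfib, ← hfib]
      exact h1 x hx z z' hz hz' k
    · intro h p hp
      rw [hPC] at hp
      obtain ⟨W, hW, h1⟩ := h p hp
      refine ⟨W, hW, fun x hx z z' hz hz' k => ?_⟩
      rw [hfib, hfib]
      exact h1 x hx z z' hz hz' k
  have hmob : ∀ (β γ : ℂ) (w : OnePoint ℂ), mob β γ w = Pool.Agent.Y334.SR.mb β γ w := by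
    intro β γ w
    induction w using OnePoint.rec with
    | infty => rw [Pool.Agent.Y334.SR.mb_infty]; rfl
    | coe z => rw [Pool.Agent.Y334.SR.mb_coe]; rfl
  have hpert : ∀ {X : Type} (f : X → OnePoint ℂ → OnePoint ℂ) (β γ : X → ℂ),
      perturb f β γ = Pool.Agent.Y334.SR.pf f β γ := by
    intro X f β γ
    funext x z
    exact hmob _ _ _
  have hom : ∀ {X : Type} [TopologicalSpace X] (T : X → X) (f : X → OnePoint ℂ → OnePoint ℂ)
      (δ r : ℝ) (N : ℕ), Omits T f δ r N ↔ Pool.Agent.Y334.SR.Om T f δ r N := by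
    intro X _ T f δ r N
    constructor
    · intro h x c hc k h1 h2
      obtain ⟨y, hy⟩ := h x c hc k h1 h2
      refine ⟨y, fun β γ hβ hγ hs => ?_⟩
      have h3 := hy β γ ⟨hβ, hγ, hs⟩
      rw [hfib, hpert] at h3
      exact h3
    · intro h x c hc k h1 h2
      obtain ⟨y, hy⟩ := h x c hc k h1 h2
      refine ⟨y, fun β γ hs => ?_⟩
      rw [hfib, hpert]
      exact hy β γ hs.1 hs.2.1 hs.2.2
  have hisrat : ∀ {e : ℕ} {P Q : ℂ[X]} {F : OnePoint ℂ → OnePoint ℂ}, 2 ≤ e →
      IsRational e P Q F → Pool.Agent.Helper114.Herman.IsRat F P Q := by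
    intro e P Q F he h
    refine ⟨h.2.2.1, h.1, ?_, h.2.2.2⟩
    rintro rfl
    have h1 : IsUnit P := isCoprime_zero_right.1 h.1
    have h2 := natDegree_eq_zero_of_isUnit h1
    have h3 := h.2.1
    rw [h2, natDegree_zero, max_self] at h3
    omega
  have hhol : ∀ {d : ℕ} {F : OnePoint ℂ → OnePoint ℂ}, Rat d F →
      Pool.Agent.Y334.RM.HolMap F := by
    rintro d F ⟨e, P, Q, he, -, h⟩
    exact (Pool.Agent.Y334.RM.good_rat (hisrat he h) (by rw [h.2.1]; exact he)).hol
  have htwo : ∀ {d : ℕ} {F : OnePoint ℂ → OnePoint ℂ}, Rat d F →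
      Pool.Agent.Y334.SR.Two F := by
    rintro d F ⟨e, P, Q, he, -, h⟩
    exact Pool.Agent.Y334.SR.two_rat (hisrat he h) (by rw [h.2.1]; exact he)
  have hone : ∀ {F : OnePoint ℂ → OnePoint ℂ} {r C lam : ℝ}, Pool.Agent.Y334.RM.HolMap F →
      0 < r → 0 < lam → lam < 1 →
      Pool.Agent.Y334.FS.HypF (id : Unit → Unit) (fun _ => F) r C lam → Hyperbolic F := by
    intro F r C lam hF hr hl0 hl1 hyp
    exact Pool.Agent.Y334.FS.hypT_of_cyc hr (le_max_right _ _) hl0 hl1
      (Pool.Agent.Y334.SR.hyp_mono hl0 (le_max_left C 0) hyp) (fun _ => hF.continuous) le_rfl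
      (x₀ := ()) rfl
  -- follow from hyperbolicity
  have hIII : ∀ r C lam η : ℝ, 0 < r → 0 < lam → lam < 1 → 0 < η → ∃ δ : ℝ, 0 < δ ∧
      ∀ (X : Type) [TopologicalSpace X] (T : X → X) (f : X → OnePoint ℂ → OnePoint ℂ),
      FiberHyperbolic T f r C lam → Follows T f η δ := by
    intro r C lam η hr hl0 hl1 hη
    obtain ⟨δ, hδ, h⟩ := Pool.Agent.Y334.SR.track (C := C) hr hl0 hl1 hη
    refine ⟨δ, hδ, fun X _ T f hyp g hg x c hc k => ?_⟩
    rw [hfib, hfib]
    exact h X T f ((hyp_iff T f r C lam).1 hyp) g hg x c hc k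
  have hcyc : ∀ {X : Type} (T : X → X) (n : ℕ), cyc T n = Pool.Agent.Y334.SR.cyc T n :=
    fun _ _ => rfl
  have hfo : ∀ {Y : Type} [TopologicalSpace Y] (S : Y → Y) (f : Y → OnePoint ℂ → OnePoint ℂ)
      (δ : ℝ), 0 < δ → Follows S f (1 / 4) δ →
      ∀ N, Pool.Agent.Y334.SR.Om S f (min (δ / 40) (1 / 4)) (3 / 4) N := by
    intro Y _ S f δ hδ h1
    apply Pool.Agent.Y334.SR.om_of_follow hδ
    intro g hg x c hc k
    have h2 := h1 g hg x c hc k
    rw [hfib, hfib] at h2
    exact h2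
  have hII : ∀ L r₀ : ℝ, 0 < r₀ → ∃ (K : ℝ) (n₀ : ℕ), 0 < K ∧ ∀ n : ℕ, n₀ ≤ n →
      ∃ r C lam : ℝ, 0 < r ∧ 0 < lam ∧ lam < 1 ∧ ∀ d : ℕ,
      (∀ (X : Type) [TopologicalSpace X] [NormalSpace X] [T1Space X] (T : X → X), Continuous T →
        ∀ f : X → OnePoint ℂ → OnePoint ℂ, (Continuous fun p : X × OnePoint ℂ => f p.1 p.2) →
        (∀ x, Rat d (f x) ∧ Lip L (f x)) →
        ((∀ x : X, ∀ k : ℕ, 1 ≤ k → k < n → T^[k] x ≠ x) →
          Omits T f (K * Real.log n / n) r₀ n → FiberHyperbolic T f r C lam) ∧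
        (Omits (cyc T n) (fun p => f p.1) (K * Real.log n / n) r₀ n →
          FiberHyperbolic T f r C lam)) ∧
      (∀ g : ZMod n → OnePoint ℂ → OnePoint ℂ, (∀ i, Rat d (g i) ∧ Lip L (g i)) →
        Omits (fun i => i + 1) g (K * Real.log n / n) r₀ n →
        ∀ i, Hyperbolic (fibre (fun i => i + 1) g n i)) ∧
      (∀ F : OnePoint ℂ → OnePoint ℂ, Rat d F → Lip L F →
        Omits (fun i : ZMod n => i + 1) (fun _ => F) (K * Real.log n / n) r₀ n → Hyperbolic F) := by
    intro L r₀ hr₀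
    obtain ⟨K, n₀, hK, hn₀, h⟩ := Pool.Agent.Y334.SR.core (Λ := max L 1) (le_max_right _ _) hr₀
    refine ⟨K, n₀, hK, fun n hn => ?_⟩
    obtain ⟨r, C, lam, hr, hC, hl0, hl1, hmain⟩ := h n hn
    have h1 : ∀ d : ℕ, ∀ (X : Type) [TopologicalSpace X] [NormalSpace X] [T1Space X] (T : X → X),
        Continuous T → ∀ f : X → OnePoint ℂ → OnePoint ℂ,
        (Continuous fun p : X × OnePoint ℂ => f p.1 p.2) →
        (∀ x, Rat d (f x) ∧ Lip L (f x)) →
        (∀ x : X, ∀ k : ℕ, 1 ≤ k → k < n → T^[k] x ≠ x) → Omits T f (K * Real.log n / n) r₀ n →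
        Pool.Agent.Y334.FS.HypF T f r C lam := by
      intro d X _ _ _ T hT f hf hx hper ho
      refine hmain X T hT hper f hf (fun x => hhol (hx x).1) (fun x => htwo (hx x).1)
        (fun x z z' => ?_) ((hom _ _ _ _ _).1 ho)
      refine ((hx x).2 z z').trans ?_
      exact mul_le_mul_of_nonneg_right (le_max_left _ _) dist_nonneg
    have hn1 : 1 ≤ n := by omega
    refine ⟨r, C, lam, hr, hl0, hl1, fun d => ⟨fun X _ _ _ T hT f hf hx => ⟨fun hper ho => ?_,
      fun ho => ?_⟩, ?_, ?_⟩⟩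
    · rw [hyp_iff]
      exact h1 d X T hT f hf hx hper ho
    · rw [hyp_iff]
      have : NormalSpace (X × ZMod n) := Pool.Agent.Y334.SR.normal_prod
      have h2 := h1 d (X × ZMod n) (cyc T n) (Pool.Agent.Y334.SR.cyc_cont hT n)
        (fun p => f p.1) (hf.comp ((continuous_fst.comp continuous_fst).prodMk continuous_snd))
        (fun p => hx p.1) (fun p k hk1 hkn => Pool.Agent.Y334.SR.cyc_aper T p k hk1 hkn) ho
      exact Pool.Agent.Y334.SR.hyp_desc h2
    swap
    · intro F hF hL ho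
      have h2 := h1 d (ZMod n) (fun i => i + 1) continuous_of_discreteTopology (fun _ => F)
        ((hhol hF).continuous.comp continuous_snd) (fun _ => ⟨hF, hL⟩)
        Pool.Agent.Y334.SR.rot_aper ho
      exact hone (hhol hF) hr hl0 hl1 (Pool.Agent.Y334.SR.hyp_one h2)
    intro g hg ho i
    have h2 := h1 d (ZMod n) (fun i => i + 1) continuous_of_discreteTopology g (by
        refine continuous_prod_of_discrete_left.2 fun i => ?_
        exact (hhol (hg i).1).continuous) hg Pool.Agent.Y334.SR.rot_aper ho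
    have h3 := Pool.Agent.Y334.SR.ret_hypT hn1 (fun i => (hhol (hg i).1).continuous) hr hC hl0 hl1
      h2 i
    have h4 : fibre (fun i => i + 1) g n i =
        Pool.Agent.Y334.FS.fb (fun i : ZMod n => i + 1) g n i := by
      funext z
      exact hfib _ _ _ _ _
    rw [h4]
    exact h3
  refine ⟨?_, hII, hIII, ?_⟩
  · -- the characterizations
    intro d
    obtain ⟨η₀, hη₀, hconj⟩ := Pool.Agent.Y334.SR.om_of_conj (2 * d + 1)
    refine ⟨η₀, hη₀, ?_⟩
    intro X _ _ _ T hT f hf hx hcl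
    have hlipE : ∃ Λ : ℝ, 1 ≤ Λ ∧ ∀ x z z', sdist (f x z) (f x z') ≤ Λ * sdist z z' := by
      rcases hcl with hc | ⟨L, hL⟩
      · have := hc
        exact Pool.Agent.Y334.SR.lip_unif hf fun x => hhol (hx x)
      · refine ⟨max L 1, le_max_right _ _, fun x z z' => (hL x z z').trans ?_⟩
        exact mul_le_mul_of_nonneg_right (le_max_left _ _) dist_nonneg
    obtain ⟨Λ, hΛ, hlip⟩ := hlipE
    have hcrit : ∀ x, ∃ S : Finset (OnePoint ℂ), S.card ≤ 2 * d + 1 ∧
        ∀ c, ¬ Pool.Agent.Y334.RM.LI (f x) c → c ∈ S := by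
      intro x
      obtain ⟨e, P, Q, he2, hed, h⟩ := hx x
      exact Pool.Agent.Y334.SR.crit_card (hisrat he2 h) (by rw [h.2.1]; exact he2)
        (by rw [h.2.1]; exact hed)
    have hss : ∀ {Y : Type} [TopologicalSpace Y] (S : Y → Y) (π : Y → X) (δ : ℝ),
        StructStable S (fun y => f (π y)) η₀ δ →
        ∀ N, Pool.Agent.Y334.SR.Om S (fun y => f (π y)) δ η₀ N := by
      intro Y _ S π δ h
      apply hconj Y S _ (fun y => hcrit (π y)) δ
      intro β γ hβ hγ hs
      obtain ⟨H, h1, h2⟩ := h β γ ⟨hβ, hγ, hs⟩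
      refine ⟨H, h1, fun x z => ?_⟩
      rw [h2, hpert]
    have hback : (∀ x : X, ∀ k : ℕ, 1 ≤ k → T^[k] x ≠ x) → ∀ δ r₀ : ℝ, 0 < δ → 0 < r₀ →
        (∀ N, Pool.Agent.Y334.SR.Om T f δ r₀ N) → IsHyp T f := by
      intro hper δ r₀ hδ hr₀ ho
      obtain ⟨K, n₀, hK, hn₀, h⟩ := Pool.Agent.Y334.SR.core hΛ hr₀
      obtain ⟨n₁, hn₁, hlog⟩ := Pool.Agent.Y334.SR.log_small K hδ
      obtain ⟨r, C, lam, hr, hC, hl0, hl1, hmain⟩ := h (max n₀ n₁) (le_max_left _ _)
      refine ⟨r, C, lam, hr, hl0, hl1, ?_⟩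
      rw [hyp_iff]
      exact hmain X T hT (fun x k hk1 _ => hper x k hk1) f hf (fun x => hhol (hx x))
        (fun x => htwo (hx x)) hlip ((ho _).mono (hlog _ (le_max_right _ _)))
    have hbackc : ∀ δ r₀ : ℝ, 0 < δ → 0 < r₀ → (∀ n₁ : ℕ, ∃ n : ℕ, n₁ ≤ n ∧
        Pool.Agent.Y334.SR.Om (cyc T n) (fun p => f p.1) δ r₀ n) → IsHyp T f := by
      intro δ r₀ hδ hr₀ ho
      obtain ⟨K, n₀, hK, hn₀, h⟩ := Pool.Agent.Y334.SR.core hΛ hr₀
      obtain ⟨n₁, hn₁, hlog⟩ := Pool.Agent.Y334.SR.log_small K hδ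
      obtain ⟨n, hn, hon⟩ := ho (max n₀ n₁)
      obtain ⟨r, C, lam, hr, hC, hl0, hl1, hmain⟩ := h n ((le_max_left _ _).trans hn)
      refine ⟨r, C, lam, hr, hl0, hl1, ?_⟩
      rw [hyp_iff]
      have : NormalSpace (X × ZMod n) := Pool.Agent.Y334.SR.normal_prod
      have h2 := hmain (X × ZMod n) (cyc T n) (Pool.Agent.Y334.SR.cyc_cont hT n)
        (fun p k hk1 hkn => Pool.Agent.Y334.SR.cyc_aper T p k hk1 hkn)
        (fun p => f p.1) (hf.comp ((continuous_fst.comp continuous_fst).prodMk continuous_snd))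
        (fun p => hhol (hx p.1)) (fun p => htwo (hx p.1)) (fun p => hlip p.1)
        (hon.mono (hlog _ ((le_max_right _ _).trans hn)))
      exact Pool.Agent.Y334.SR.hyp_desc h2
    have hE : IsHyp T f → ∀ η : ℝ, 0 < η → ∃ δ : ℝ, 0 < δ ∧ ∀ (Y : Type) (S : Y → Y) (π : Y → X),
        (∀ y, π (S y) = T (π y)) → Follows S (fun y => f (π y)) η δ := by
      rintro ⟨r, C, lam, hr, hl0, hl1, hyp⟩ η hη
      obtain ⟨δ, hδ, h⟩ := hIII r C lam η hr hl0 hl1 hη
      refine ⟨δ, hδ, fun Y S π hπ => ?_⟩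
      let _ : TopologicalSpace Y := TopologicalSpace.induced π inferInstance
      refine h Y S _ ?_
      rw [hyp_iff] at hyp ⊢
      exact Pool.Agent.Y334.SR.hyp_ext continuous_induced_dom hπ hyp
    have hEO : (∀ η : ℝ, 0 < η → ∃ δ : ℝ, 0 < δ ∧ ∀ (Y : Type) (S : Y → Y) (π : Y → X),
        (∀ y, π (S y) = T (π y)) → Follows S (fun y => f (π y)) η δ) →
        ∃ δ r : ℝ, 0 < δ ∧ 0 < r ∧ ∀ n N : ℕ, Omits (cyc T n) (fun p => f p.1) δ r N := by
      intro h
      obtain ⟨δ, hδ, h1⟩ := h (1 / 4) (by norm_num)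
      refine ⟨min (δ / 40) (1 / 4), 3 / 4, by positivity, by norm_num, fun n N => ?_⟩
      exact (hom _ _ _ _ _).2 (hfo _ _ δ hδ (h1 (X × ZMod n) (cyc T n) Prod.fst fun _ => rfl) N)
    have hOU : (∃ δ r : ℝ, 0 < δ ∧ 0 < r ∧ ∀ n N : ℕ, Omits (cyc T n) (fun p => f p.1) δ r N) →
        ∃ δ r : ℝ, 0 < δ ∧ 0 < r ∧
          ∀ n₁ : ℕ, ∃ n : ℕ, n₁ ≤ n ∧ Omits (cyc T n) (fun p => f p.1) δ r n := by
      rintro ⟨δ, r, hδ, hr, h⟩
      exact ⟨δ, r, hδ, hr, fun n₁ => ⟨n₁, le_rfl, h n₁ n₁⟩⟩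
    have hUH : (∃ δ r : ℝ, 0 < δ ∧ 0 < r ∧
          ∀ n₁ : ℕ, ∃ n : ℕ, n₁ ≤ n ∧ Omits (cyc T n) (fun p => f p.1) δ r n) → IsHyp T f := by
      rintro ⟨δ, r, hδ, hr, h⟩
      refine hbackc δ r hδ hr fun n₁ => ?_
      obtain ⟨n, hn, hon⟩ := h n₁
      exact ⟨n, hn, (hom _ _ _ _ _).1 hon⟩
    have hfol : IsHyp T f → ∀ η : ℝ, 0 < η → ∃ δ : ℝ, 0 < δ ∧ Follows T f η δ := by
      intro h η hη
      obtain ⟨δ, hδ, h1⟩ := hE h η hη
      exact ⟨δ, hδ, h1 X T id fun _ => rfl⟩
    refine ⟨fun hper => ⟨⟨hfol, fun h => ?_⟩, ⟨fun h => ?_, ?_⟩, fun δ hδ h => ?_⟩,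
      ⟨hE, fun h => hUH (hOU (hEO h))⟩, ⟨fun h => hEO (hE h), fun h => hUH (hOU h)⟩,
      ⟨fun h => hOU (hEO (hE h)), hUH⟩, fun δ hδ h => ?_⟩
    · obtain ⟨δ, hδ, h1⟩ := h (1 / 4) (by norm_num)
      exact hback hper _ (3 / 4) (by positivity) (by norm_num) (hfo T f δ hδ h1)
    · obtain ⟨δ, hδ, h1⟩ := hfol h (1 / 4) (by norm_num)
      exact ⟨min (δ / 40) (1 / 4), 3 / 4, by positivity, by norm_num,
        fun N => (hom _ _ _ _ _).2 (hfo T f δ hδ h1 N)⟩
    · rintro ⟨δ, r, hδ, hr, ho⟩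
      exact hback hper δ r hδ hr fun N => (hom _ _ _ _ _).1 (ho N)
    · exact hback hper δ η₀ hδ hη₀ (hss T id δ h)
    · refine hbackc δ η₀ hδ hη₀ fun n₁ => ?_
      obtain ⟨n, hn, hn2⟩ := h n₁
      exact ⟨n, hn, hss (cyc T n) Prod.fst δ hn2 n⟩
  · -- one map
    intro d F hF
    have hhF := hhol hF
    obtain ⟨Λ, hΛ, hlip⟩ := Pool.Agent.Y334.FS.hol_lip hhF
    refine ⟨fun hs => ?_, ?_⟩
    · obtain ⟨e, P, Q, he, -, hPQ⟩ := hF
      have hgood := Pool.Agent.Y334.RM.good_rat (hisrat he hPQ) (by rw [hPQ.2.1]; exact he)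
      have hopen := Pool.Agent.Helper114.Herman.isOpenMap_rat (hisrat he hPQ)
        (by rw [hPQ.2.1]; omega)
      have htwo' := Pool.Agent.Y334.SR.two_rat (hisrat he hPQ) (by rw [hPQ.2.1]; exact he)
      have hsink := Pool.Agent.Y334.SR.sink_of_top hhF hgood.surj hopen htwo' hs
      obtain ⟨δ, hδ, ho⟩ := Pool.Agent.Y334.SR.om_of_sink hgood hΛ hlip hsink
      obtain ⟨K, n₀, hK, hn₀, h⟩ := Pool.Agent.Y334.SR.core hΛ (show (0 : ℝ) < 3 / 4 by norm_num)
      obtain ⟨n₁, hn₁, hlog⟩ := Pool.Agent.Y334.SR.log_small K hδ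
      obtain ⟨r, C, lam, hr, hC, hl0, hl1, hmain⟩ := h (max n₀ n₁) (le_max_left _ _)
      refine ⟨r, C, lam, hr, hl0, hl1, ?_⟩
      rw [hyp_iff]
      apply Pool.Agent.Y334.SR.hyp_one (n := max n₀ n₁)
      exact hmain (ZMod (max n₀ n₁)) (fun i => i + 1) continuous_of_discreteTopology
        Pool.Agent.Y334.SR.rot_aper (fun _ => F) (hhF.continuous.comp continuous_snd)
        (fun _ => hhF) (fun _ => htwo') (fun _ => hlip)
        ((ho (ZMod (max n₀ n₁)) _ _).mono (hlog _ (le_max_right _ _)))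
    · rintro ⟨r, C, lam, hr, hl0, hl1, hyp⟩
      rw [hyp_iff] at hyp
      exact hone hhF hr hl0 hl1 hyp

end Pool.Agent.Results.MP_8f2e1c_an.StableRational
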